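import Pool.Agent.helper98.P2F.SpecC
import Pool.Agent.helper1.P2.eLO

/-!
# Project p2f: CMLO: the first completion exists before or at the first violation (copy of MLO, helper65)
-/

set_option autoImplicit false

open Complex Metric Set Filter Topology MeasureTheory
open Pool.Agent.helper98.ILF
open WP (it)
open HY (UD T S hd UN RM)
open PM
open P2 (SS FL FLS CLS FR TL)
open PL (TP LO PZ GJ INR PG DK ht tr DI CY hG cv hv cm BS DQ)
open P2B (VE)

noncomputable section

namespace P2F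

/-- the Julia set is invariant. -/
theorem CMLO_itJ {f : Polynomial ℂ} {R : ℝ} (hS : SS f R) {x : ℂ} (hx : x ∈ JJ f) (i : ℕ) : it f i x ∈ JJ f := by
  induction i with
  | zero => exact hx
  | succ i ih =>
    have h1 : it f (i + 1) x = f.eval (it f i x) := by
      unfold it
      rw [Function.iterate_succ_apply']
    rw [h1]
    exact (hS.Ji _).2 ih

theorem CMLO (hEND : P2.END_stmt) (hVDC : P2.VDC_stmt) (hSTE : P2.STE_stmt) (hOUT : P2A.OUT2_stmt) (hTDF : TDF_stmt)
    (hVKF : VKF_stmt) (hVCF : VCF_stmt) : CMLO_stmt := by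
  classical
  intro f R hS μ x₀ hT P hP hP0 U hU Q hQ a₀ ha₀
  obtain ⟨ρ, hρ, hQ'⟩ := hQ
  by_contra hcon
  push Not at hcon
  refine hEND f R hS μ x₀ hT U hU (min a₀ 1) (lt_min ha₀ one_pos) ?_
  intro a ha haa
  have ha1 : a ≤ 1 := (haa.le).trans (min_le_right _ _)
  obtain ⟨a₁, ha₁, ha₁a, hSTE'⟩ := hSTE f R hS a ha
  obtain ⟨e, he, hne⟩ := hcon a₁ ha₁ (lt_of_le_of_lt ha₁a (lt_of_lt_of_le haa (min_le_left _ _))) (ha₁a.trans ha1)
  have hne' : ∀ᶠ k in (U : Filter ℕ), ∀ T : ℕ, ¬ SCT f R P Q a₁ k T e := by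
    exact hne
  obtain ⟨k₁, hk₁⟩ := hVDC f R hS μ x₀ hT a ha
  have hex : ∀ k : ℕ, ∃ (t n : ℕ) (x : ℂ), x ∈ JJ f ∧ (k₁ ≤ k → k ≤ n ∧ P k x (n + t) ∧ ¬ LO f R x a n t ∧
      ∀ v < t, ∀ n' ≥ k, ∀ y : ℂ, P k y (n' + v) → LO f R y a n' v) := by
    intro k
    by_cases hk : k₁ ≤ k
    · obtain ⟨t, n, x, h1, h2, h3, h4⟩ := hk₁ P k hk (fun H hH => hP0 k H hH)
      exact ⟨t, n, x, hP.J _ _ _ h2, fun _ => ⟨h1, h2, h3, h4⟩⟩
    · exact ⟨0, 0, x₀, hT.mem, fun h => absurd h hk⟩
  choose t n x hxJ hx using hex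
  have hev : ∀ᶠ k in (U : Filter ℕ), k₁ ≤ k := hU (eventually_ge_atTop k₁)
  have hid : Tendsto (fun j : ℕ => j) U atTop := tendsto_id'.2 hU
  -- no completed returns up to the violation
  have hNE : ∀ᶠ k in (U : Filter ℕ), ∀ v ≤ t k, ¬ CRT f P Q k v e := by
    filter_upwards [hev, hne'] with k hk h1 v hv h2
    obtain ⟨-, -, -, h4⟩ := hx k hk
    have hfind : ∃ v, CRT f P Q k v e := ⟨v, h2⟩
    have h5 : Nat.find hfind ≤ v := Nat.find_min' hfind h2
    refine h1 (Nat.find hfind) ⟨Nat.find_spec hfind, fun v' hv' => Nat.find_min hfind hv', ?_⟩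
    intro v' hv' n' hn' y hy
    rcases Nat.lt_or_ge v' (t k) with hvt | hvt
    · exact P2.eLO_mono ha₁a (h4 v' hvt n' hn' y hy)
    · obtain ⟨n'', x'', T'', m'', -, hm1, hTm, -, -⟩ := Nat.find_spec hfind
      have hvt' : v' = t k := by omega
      have ht1 : 1 ≤ t k := by omega
      obtain ⟨s, hs⟩ : ∃ s, t k = s + 1 := ⟨t k - 1, by omega⟩
      rw [hvt', hs] at hy ⊢
      have h6 := h4 s (by omega) (n' + 1) (by omega) y (by
        rw [show n' + 1 + s = n' + (s + 1) by omega]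
        exact hy)
      exact hSTE' y (hP.J _ _ _ hy) n' s h6
  refine ⟨x, n, t, hxJ, ?_⟩
  refine ⟨?_, ?_, ?_, ?_, ?_, ?_, ?_⟩
  · exact hP.fl U (fun j => j) (fun j => n j + t j) x hU hid (by
      filter_upwards [hev] with k hk
      exact (hx k hk).2.1)
  · intro w hw
    exact hP.fl U (fun j => j) (fun j => j + w j) x hU hid (by
      filter_upwards [hev, hw] with k hk hwk
      obtain ⟨h1, h2, -, -⟩ := hx k hk
      exact hP.up _ _ _ _ h2 (by omega) (by omega))
  · filter_upwards [hev] with k hk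
    exact (hx k hk).1
  · filter_upwards [hev] with k hk
    exact (hx k hk).2.2.1
  · filter_upwards [hev] with k hk n' hn' v hv hnv
    obtain ⟨h1, h2, -, h4⟩ := hx k hk
    exact h4 v hv n' hn' (x k) (hP.up _ _ _ _ h2 (by omega) hnv)
  · -- the line of the violation
    intro χ G w hFR hw hTL
    refine hOUT f R hS μ x₀ hT P hP x hxJ U (fun j => j) (fun j => n j + t j) χ hid ?_ hFR w G hTL ?_ a₁ ha₁ ?_ ρ hρ ?_
    · filter_upwards [hev] with k hk
      exact (hx k hk).2.1
    · filter_upwards [hev, hw] with k hk hwk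
      have h1 := (hx k hk).1
      constructor <;> omega
    · filter_upwards [hev, hw] with k hk hwk v hv
      obtain ⟨h1, h2, h3, h4⟩ := hx k hk
      rcases Nat.lt_or_ge v (t k) with hvt | hvt
      · exact P2.eLO_mono ha₁a (h4 v hvt _ (by omega) (x k) (hP.up _ _ _ _ h2 (by omega) (by omega)))
      · have hvt' : v = t k := by omega
        have hwt : w k = t k := by omega
        have ht0 : t k ≠ 0 := by
          intro h0
          apply h3
          rw [h0]
          exact P2.eLO_mono ha1 (P2.eLO_zero hTDF hVKF hVCF hS (hxJ k) (n k))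
        obtain ⟨s, hs⟩ : ∃ s, t k = s + 1 := ⟨t k - 1, by omega⟩
        have hn' : n k + t k - w k = n k := by omega
        rw [hn', hvt', hs]
        have h5 := h4 s (by omega) (n k + 1) (by omega) (x k) (by
          rw [hs] at h2
          rw [show n k + 1 + s = n k + (s + 1) by omega]
          exact h2)
        exact hSTE' (x k) (hxJ k) (n k) s h5
    · refine ⟨e, he, ?_⟩
      filter_upwards [hev, hw, hNE] with k hk hwk hNk u v huv hvw hD
      obtain ⟨h1, h2, h3, h4⟩ := hx k hk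
      refine hNk v (by omega) ⟨n k + t k - w k, x k, u, v - u, by omega, by omega, by omega, ?_, hQ' _ _ _ _ (CMLO_itJ hS (hxJ k) u) hD⟩
      exact hP.up _ _ _ _ h2 (by omega) (by omega)
  · -- the lines of the base level
    intro χ G w hFR hw hTL
    refine hOUT f R hS μ x₀ hT P hP x hxJ U (fun j => j) (fun j => j + w j) χ hid ?_ hFR w G hTL ?_ a ha ?_ ρ hρ ?_
    · filter_upwards [hev, hw] with k hk hwk
      obtain ⟨h1, h2, h3, h4⟩ := hx k hk
      exact hP.up _ _ _ _ h2 (by omega) (by omega)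
    · filter_upwards [hev, hw] with k hk hwk
      constructor <;> omega
    · filter_upwards [hev, hw] with k hk hwk v hv
      obtain ⟨h1, h2, h3, h4⟩ := hx k hk
      exact h4 v (by omega) _ (by omega) (x k) (hP.up _ _ _ _ h2 (by omega) (by omega))
    · refine ⟨e, he, ?_⟩
      filter_upwards [hev, hw, hNE] with k hk hwk hNk u v huv hvw hD
      obtain ⟨h1, h2, h3, h4⟩ := hx k hk
      refine hNk v (by omega) ⟨k + w k - w k, x k, u, v - u, by omega, by omega, by omega, ?_, hQ' _ _ _ _ (CMLO_itJ hS (hxJ k) u) hD⟩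
      exact hP.up _ _ _ _ h2 (by omega) (by omega)

end P2F
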